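import Pool.Agent.H225.FX

/-!
# Almost twin primes between consecutive cubes, isolated, in sparse sets given by digits

Let `b ≥ 2` be a base and `[M, M + b^K)` any block of integers inside the interval between `x^3` and
`(x + 1)^3`, where `b^K` is at least a fixed (arbitrarily small) power of `x`.  Write `m = M + n` and let
the digits of `n < b^K` be restricted: the `i`-th digit belongs to a set `A i`, where the sets `A i` are
arbitrary, depend on the place `i < K`, and have the only property that the number `∏ |A i|` of these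
`m` is at least `e^{-δK} b^K`, where the constant `δ > 0` does not depend on `b`.

Then for EVERY such `x` and every block at least `κ ∏ |A i| / K^2` of these `m` are such that
`m` and `m + 2` have at most `r` prime factors, all larger than `b^{K/r}`, while every other
integer in `[m, m + c K]` has a prime factor `≤ b^{K/r}` (if the last digit can be chosen such that the
2 numbers are prime to `b`); and for at most `C ∏ |A i| / K^2` of these `m` the 2 numbers are primes.

The method is a Brun–Hooley sieve with weights, whose level of distribution is obtained from the Fourier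
transform of the set of the integers with restricted digits at rationals (large sieve in blocks of
digits), see `Pool/Agent/Y816/PD`; the other integers in `[m, m + c K]` are excluded by the upper bound for
patterns with one more element and an average of the sieve products (`Pool/Agent/H225/EX2`).
-/

set_option autoImplicit false

namespace Pool.Agent.Results.MP_d610d0_nt.IsolatedWithDigits

open Finset Filter

/-- The shape. -/
def Q : Finset ℕ := {0, 2}

open Classical in
/-- The number of the `n < b ^ K`, whose `i`-th digit in base `b` belongs to `A i` for all `i < K`, such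
that `M + n` belongs to `T`. -/
noncomputable def count (b K M : ℕ) (A : ℕ → Finset ℕ) (T : Set ℕ) : ℕ :=
  ((range (b ^ K)).filter (fun n => (∀ i < K, n / b ^ i % b ∈ A i) ∧ M + n ∈ T)).card

/-- The number of choices of the digits. -/
noncomputable def choices (K : ℕ) (A : ℕ → Finset ℕ) : ℝ := ∏ i ∈ range K, ((A i).card : ℝ)

/-- All prime factors of `m` are larger than `z ^ (1 / r)`. -/
def Rough (r z m : ℕ) : Prop := ∀ p : ℕ, p.Prime → p ∣ m → z < p ^ r

open Pool.Agent.Y816.PD (ND ND_sub)

lemma adm_Q : Pool.Agent.H225.EX.Adm Q := by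
  intro p hp
  unfold Q
  by_cases h3 : p = 3
  · subst h3
    exact ⟨2, by decide⟩
  · refine ⟨1, fun q hq hd => ?_⟩
    simp only [mem_insert, mem_singleton] at hq
    rcases hq with rfl | rfl
    · exact hp.one_lt.ne' (Nat.dvd_one.1 hd)
    · exact h3 ((Nat.prime_dvd_prime_iff_eq hp Nat.prime_three).1 hd)

lemma card_Q : Q.card = 2 := by decide

/-- **Almost twin primes between consecutive cubes, isolated, at integers with restricted digits.** -/
theorem result (D : ℕ) :
    ∃ δ : ℝ, 0 < δ ∧ ∃ r₀ : ℕ, 2 ≤ r₀ ∧ ∀ r : ℕ, r₀ ≤ r → ∀ b : ℕ, 2 ≤ b →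
      ∃ κ C c : ℝ, 0 < κ ∧ 0 < C ∧ 0 < c ∧ ∀ᶠ K : ℕ in atTop, ∀ x M : ℕ, x ^ 3 ≤ M →
        M + b ^ K + 2 ≤ (x + 1) ^ 3 → x ≤ b ^ (D * K) →
        ∀ A : ℕ → Finset ℕ, (∀ i < K, A i ⊆ range b) →
        (b : ℝ) ^ K ≤ Real.exp (δ * K) * choices K A →
        ((∃ e ∈ A 0, ∀ q ∈ Q, (M + e + q).Coprime b) → (∃ e ∈ A (K - 1), e ≠ 0) →
          κ * choices K A / (K : ℝ) ^ 2 ≤ count b K M A {m | x ^ 3 < m ∧ m + 2 < (x + 1) ^ 3 ∧
            (∀ q ∈ Q, Rough r (b ^ K) (m + q) ∧ (m + q).primeFactorsList.length ≤ r) ∧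
            ∀ j : ℕ, (j : ℝ) ≤ c * K → j ∉ Q → ¬ Rough r (b ^ K) (m + j)}) ∧
        (count b K M A {m | ∀ q ∈ Q, (m + q).Prime} : ℝ) ≤ C * choices K A / (K : ℝ) ^ 2 := by
  obtain ⟨δ, hδ, r₀, hr₀, h⟩ := Pool.Agent.H225.FX.fx Q ⟨0, by decide⟩ adm_Q (3 * (D + 1))
  refine ⟨δ, hδ, r₀, hr₀, fun r hr b hb => ?_⟩
  obtain ⟨κ, C, c, hκ, hC, hc, h1⟩ := h r hr b hb
  refine ⟨κ, C, c, hκ, hC, hc, ?_⟩
  filter_upwards [h1, eventually_ge_atTop 2] with K hK hK2 x M hxM hM hx A hA hprod
  have hbK : 2 ≤ b ^ K := hb.trans (Nat.le_self_pow (by omega) b)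
  have hbK1 : 2 ≤ b ^ (K - 1) := hb.trans (Nat.le_self_pow (by omega) b)
  have hMle : M ≤ b ^ (3 * (D + 1) * K) := by
    have e : b ^ (3 * (D + 1) * K) = (b ^ (D * K) * b ^ K) ^ 3 := by
      rw [← pow_add, ← pow_mul]
      congr 1
      ring
    rw [e]
    refine le_trans (by omega : M ≤ (x + 1) ^ 3) (Nat.pow_le_pow_left ?_ 3)
    have h2 : b ^ (D * K) * 2 ≤ b ^ (D * K) * b ^ K := Nat.mul_le_mul_left _ hbK
    have h3 : 1 ≤ b ^ (D * K) := Nat.one_le_pow _ _ (by omega)
    omega
  obtain ⟨h2, h3⟩ := hK M hMle A hA hprod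
  rw [card_Q] at h2 h3
  refine ⟨fun hcop htop => (h2 hcop htop).trans (Nat.cast_le.2 (ND_sub fun n hn hn1 hn2 =>
    ⟨hn1, ?_⟩)), h3⟩
  obtain ⟨g1, g2, g3⟩ := hn2
  exact ⟨by omega, by omega, g2, g3⟩

end Pool.Agent.Results.MP_d610d0_nt.IsolatedWithDigits
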