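import Pool.Agent.V11249.NP.Reg
import Pool.Agent.V11249.NP.Fam

/-!
# Almost prime pairs with any even difference: regular windows between consecutive cubes and in all short intervals

Let `h ≥ 2` be even. In every interval `(X, X + Y]` with `X ^ θ ≤ Y ≤ X` at least `κ Y` of the integers `x` are
regular: every window `(a, b]` around `x` of length between `K log ^ 2 X` and `Y` contains the right order of integers
`m` for which `m` and `m + h` are almost primes; moreover, at all but boundedly many dyadic scales these `m` have a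
constant density around `x`, up to an error `δ`. This holds in particular between all large consecutive cubes.
-/

set_option autoImplicit false

open Finset Filter Polynomial

namespace Pool.Agent.Results.MP_d610d0_nt.RegularWindows

/-- `m` and `m + h` have at most `r` prime factors (with multiplicity), all of them larger than `z` -/
def AlmostPair (h r : ℕ) (z : ℝ) (m : ℕ) : Prop :=
  (m.primeFactorsList.length ≤ r ∧ ∀ p : ℕ, p.Prime → p ∣ m → z < p) ∧
  (m + h).primeFactorsList.length ≤ r ∧ ∀ p : ℕ, p.Prime → p ∣ m + h → z < p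

open Classical in
/-- the number of such `m` in `(a, b]`, all prime factors being larger than `X ^ (1 / r)` -/
noncomputable def cnt (h r X a b : ℕ) : ℕ :=
  ((Ioc a b).filter (fun m => AlmostPair h r ((X : ℝ) ^ (1 / (r : ℝ))) m)).card

/-- all windows `(a, b]` around `x`, of length between `K log ^ 2 X` and `Y`, contain the right order of such `m` -/
def Regular (h r : ℕ) (c₁ c₂ K : ℝ) (X Y x : ℕ) : Prop :=
  ∀ a b : ℕ, a ≤ x → x ≤ b → K * Real.log X ^ 2 ≤ (b : ℝ) - a → (b : ℝ) - a ≤ Y →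
    c₁ * ((b : ℝ) - a) / Real.log X ^ 2 ≤ (cnt h r X a b : ℝ) ∧
    (cnt h r X a b : ℝ) ≤ c₂ * ((b : ℝ) - a) / Real.log X ^ 2

/-- the density is constant on `[x - 2 ^ j, x + 2 ^ j]`, up to `δ` -/
def Constant (h r : ℕ) (c₁ c₂ δ : ℝ) (X x j : ℕ) : Prop :=
  ∃ lam : ℝ, c₁ ≤ lam ∧ lam ≤ c₂ ∧ ∀ u v : ℕ, x ≤ u + 2 ^ j → u ≤ v → v ≤ x + 2 ^ j →
    |(cnt h r X u v : ℝ) - lam * ((v : ℝ) - u) / Real.log X ^ 2| ≤ δ * 2 ^ j / Real.log X ^ 2

open Classical in
/-- the number of the scales `2 ^ j` between `log ^ 2 X` and `Y` at which the density is not constant -/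
noncomputable def badScales (h r : ℕ) (c₁ c₂ δ : ℝ) (X Y x : ℕ) : ℕ :=
  ((range (Nat.log 2 Y + 1)).filter (fun j => Real.log X ^ 2 ≤ (2 : ℝ) ^ j ∧ ¬ Constant h r c₁ c₂ δ X x j)).card

/-- the system -/
noncomputable def F (h : ℕ) : Fin 2 → ℤ[X] := fun i => Pool.Agent.TH464.PW.quad 0 1 (((i : ℕ) * h : ℕ) : ℤ)

theorem Fe (h : ℕ) (i : Fin 2) : F h i = C (1 : ℤ) * X + C (((i : ℕ) * h : ℕ) : ℤ) := by
  unfold F Pool.Agent.TH464.PW.quad
  simp

theorem ev (h : ℕ) (i : Fin 2) (m : ℕ) : (F h i).eval (m : ℤ) = ((m + (i : ℕ) * h : ℕ) : ℤ) := by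
  rw [Fe]
  simp

theorem sys {h : ℕ} (hh : 2 ≤ h) (he : Even h) : Pool.Agent.W123.RU.Poly.Sys (F h) := by
  refine ⟨fun i => ?_, fun i => ?_, fun i => ?_, fun i j hij => ?_, fun p hp => ?_⟩
  · exact Pool.Agent.V11249.NP.lin_irr _ _ one_ne_zero (by simp)
  · rw [Fe, natDegree_linear one_ne_zero]
    norm_num
  · rw [Fe, leadingCoeff_linear one_ne_zero]
    norm_num
  · have h1 : (F h i).eval ((0 : ℕ) : ℤ) = (F h j).eval ((0 : ℕ) : ℤ) := by rw [hij]
    rw [ev, ev] at h1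
    have h2 : 0 + (i : ℕ) * h = 0 + (j : ℕ) * h := by exact_mod_cast h1
    have h3 : (i : ℕ) * h = (j : ℕ) * h := by omega
    exact Fin.ext (Nat.eq_of_mul_eq_mul_right (by omega) h3)
  · have hp2 := hp.two_le
    by_cases h1 : p ∣ 1 + h
    · have hp3 : 3 ≤ p := by
        by_contra hcon
        have hpe : p = 2 := by omega
        rw [hpe] at h1
        obtain ⟨t, ht⟩ := he
        omega
      refine ⟨p - 1, fun i hd => ?_⟩
      rw [ev] at hd
      have hd' : p ∣ p - 1 + (i : ℕ) * h := Int.natCast_dvd_natCast.1 hd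
      fin_cases i
      · have hd2 : p ∣ p - 1 + 0 * h := hd'
        have h5 : p - 1 + 0 * h = p - 1 := by omega
        rw [h5] at hd2
        have := Nat.le_of_dvd (by omega) hd2
        omega
      · have hd2 : p ∣ p - 1 + 1 * h := hd'
        have h3 := Nat.dvd_sub ((Nat.dvd_add_right dvd_rfl).2 h1 : p ∣ p + (1 + h)) hd2
        have h4 : p + (1 + h) - (p - 1 + 1 * h) = 2 := by omega
        rw [h4] at h3
        have := Nat.le_of_dvd (by norm_num) h3
        omega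
    · refine ⟨1, fun i hd => ?_⟩
      rw [ev] at hd
      have hd' : p ∣ 1 + (i : ℕ) * h := Int.natCast_dvd_natCast.1 hd
      fin_cases i
      · have hd2 : p ∣ 1 + 0 * h := hd'
        have h5 : 1 + 0 * h = 1 := by omega
        rw [h5] at hd2
        have := Nat.le_of_dvd (by norm_num) hd2
        omega
      · have hd2 : p ∣ 1 + 1 * h := hd'
        rw [one_mul] at hd2
        exact h1 hd2

theorem iff_almost (h r : ℕ) (z : ℝ) (m : ℕ) : AlmostPair h r z m ↔ Pool.Agent.TH464.PW.Almost (F h) r z m := by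
  unfold AlmostPair Pool.Agent.TH464.PW.Almost
  rw [Fin.forall_fin_two, ev, ev, Int.natAbs_natCast, Int.natAbs_natCast]
  have e0 : m + ((0 : Fin 2) : ℕ) * h = m := by simp
  have e1 : m + ((1 : Fin 2) : ℕ) * h = m + h := by simp
  rw [e0, e1]
  simp only [Int.natCast_dvd_natCast]

open Classical in
/-- **Regular windows for almost prime pairs.** (1) For every even `h ≥ 2` and `0 < θ ≤ 1` there are `r` and
`c₁, c₂, K, κ > 0` such that for every `δ > 0` there is `B` such that for all large `X` and all `X ^ θ ≤ Y ≤ X`: at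
least `κ Y` of the `x` in `(X, X + Y]` are regular and have at most `B` scales at which the density is not constant up
to `δ`. (2) For `θ ≤ 2/3` this applies to `X = n ^ 3`, `Y = (n + 1) ^ 3 - n ^ 3` for all `n ≥ 4`. -/
theorem result (h : ℕ) (hh : 2 ≤ h) (he : Even h) :
    (∀ θ : ℝ, 0 < θ → θ ≤ 1 →
      ∃ (r : ℕ) (c₁ c₂ K κ : ℝ), 0 < c₁ ∧ 0 < c₂ ∧ 0 < K ∧ 0 < κ ∧ ∀ δ : ℝ, 0 < δ → ∃ B : ℕ,
        ∀ᶠ X : ℕ in atTop, ∀ Y : ℕ, (X : ℝ) ^ θ ≤ Y → Y ≤ X →
          κ * Y ≤ (((Ioc X (X + Y)).filter (fun x =>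
            Regular h r c₁ c₂ K X Y x ∧ badScales h r c₁ c₂ δ X Y x ≤ B)).card : ℝ)) ∧
    (∀ θ : ℝ, θ ≤ 2 / 3 → ∀ n : ℕ, 4 ≤ n → ((n ^ 3 : ℕ) : ℝ) ^ θ ≤ (((n + 1) ^ 3 - n ^ 3 : ℕ) : ℝ) ∧
      (n + 1) ^ 3 - n ^ 3 ≤ n ^ 3) := by
  refine ⟨fun θ hθ hθ1 => Pool.Agent.V11249.NP.reg_win (g := 2) (by norm_num) (F h) (sys hh he) (AlmostPair h)
    (iff_almost h) θ hθ hθ1, fun θ hθ n hn => ?_⟩
  have e : (n + 1) ^ 3 - n ^ 3 = 3 * n ^ 2 + 3 * n + 1 := by
    have : (n + 1) ^ 3 = n ^ 3 + (3 * n ^ 2 + 3 * n + 1) := by ring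
    omega
  rw [e]
  constructor
  · have h1 : (1 : ℝ) ≤ ((n ^ 3 : ℕ) : ℝ) := by
      have : 1 ≤ n ^ 3 := Nat.one_le_pow _ _ (by omega)
      exact_mod_cast this
    refine (Real.rpow_le_rpow_of_exponent_le h1 hθ).trans ?_
    have h2 : ((n ^ 3 : ℕ) : ℝ) ^ (2 / 3 : ℝ) = (n : ℝ) ^ 2 := by
      push_cast
      rw [← Real.rpow_natCast (n : ℝ) 3, ← Real.rpow_mul (Nat.cast_nonneg n)]
      norm_num
    rw [h2]
    push_cast
    nlinarith [sq_nonneg (n : ℝ), (Nat.cast_nonneg n : (0 : ℝ) ≤ n)]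
  · have h3 : n ^ 3 = n * n ^ 2 := by ring
    have h4 : 4 * n ^ 2 ≤ n * n ^ 2 := Nat.mul_le_mul_right _ hn
    have h5 : n ^ 2 = n * n := by ring
    have h6 : 4 * n ≤ n * n := Nat.mul_le_mul_right _ hn
    omega

end Pool.Agent.Results.MP_d610d0_nt.RegularWindows
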