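import Pool.Agent.V11237.LP.PtInst

set_option autoImplicit false

/-!
# Almost prime twins between consecutive cubes (and other powers): their number and the laws of their gaps
-/

namespace Pool.Agent.Results.MP_d610d0_nt.TwinLawsBetweenCubes

open Finset
open Pool.Agent.V11237.LP.Pt

/-- **Theorem.** Let `a ≥ 2` (`a = 3` for cubes), `l₀`, `x₀` and `ε > 0`. There is `r₀` such that for all
`r ≥ r₀` and ALL large `m` the following holds with `N = (m + 1) ^ a`. Call `n ≡ 5` modulo `6` good if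
neither `n` nor `n + 2` has a prime factor `p ≤ N ^ (1 / r)`; for `n < N` both numbers then have at most
`r` prime factors. For all `l` and `T` with `l ≤ l₀` or `T V ≤ x₀` the number of the good `n` with
`m ^ a < n < n + 2 < (m + 1) ^ a` and with fewer than `l` good integers in `[n - T, n)` is
`((m + 1) ^ a - m ^ a) V ∑_{j < l} e ^ (-T V) (T V) ^ j / j!` up to at most `ε ((m + 1) ^ a - m ^ a) V`,
where `V > 0` is one sixth of the product of `1 - 2 / p` over the primes `3 < p ≤ N ^ (1 / r)`. (For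
`l = 1` and `T = 0` this is the number of all the good pairs between the two powers.) -/
theorem result (a : ℕ) (ha : 2 ≤ a) (l₀ : ℕ) (x₀ ε : ℝ) (hε : 0 < ε) :
    ∃ r₀ : ℕ, 2 ≤ r₀ ∧ ∀ r : ℕ, r₀ ≤ r → ∃ m₀ : ℕ, ∀ m : ℕ, m₀ ≤ m →
      ((∀ n : ℕ, n < (m + 1) ^ a → Good 6 5 ![0, 2] ((m + 1) ^ a) r n →
          ∀ i, (n + ![0, 2] i).primeFactorsList.length ≤ r) ∧ 0 < V 3 6 2 ((m + 1) ^ a) r) ∧
      ∀ l T : ℕ, (l ≤ l₀ ∨ T * V 3 6 2 ((m + 1) ^ a) r ≤ x₀) →
        |(G 6 5 ![0, 2] ((m + 1) ^ a) r l T (m ^ a) ((m + 1) ^ a) 2 : ℝ) -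
          ((m + 1) ^ a - m ^ a) * V 3 6 2 ((m + 1) ^ a) r *
            ∑ j ∈ range l, Real.exp (-(T * V 3 6 2 ((m + 1) ^ a) r)) *
              (T * V 3 6 2 ((m + 1) ^ a) r) ^ j / j.factorial| ≤
        ε * (((m + 1) ^ a - m ^ a) * V 3 6 2 ((m + 1) ^ a) r) :=
  between pat_twin (by decide) 2 a ha l₀ x₀ ε hε

end Pool.Agent.Results.MP_d610d0_nt.TwinLawsBetweenCubes
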